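import Pool.Agent.W707.FE.A

/-!
# Euler-Maclaurin summation for holomorphic functions (`S_EM`)
-/

set_option autoImplicit false

namespace Pool.Agent.W571.FE.EM

open Pool.Agent.W707.FE Filter MeasureTheory Set
open scoped Real Topology Nat

/-- the coefficients -/
noncomputable def bb (θ : ℝ) : ℕ → ℝ
  | n => (θ ^ (n + 1) - 1 / (n + 2) -
      ∑ k : Fin n, bb θ k * ((n + 1).descFactorial k : ℕ)) / ((n + 1)! : ℕ)
termination_by n => n
decreasing_by exact k.2

lemma bb_rec (θ : ℝ) (m : ℕ) :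
    ∑ k ∈ Finset.range m, bb θ k * (m.descFactorial k : ℕ) = θ ^ m - 1 / (m + 1) := by
  rcases m with _ | n
  · simp
  · rw [Finset.sum_range_succ]
    have h1 : (n + 1).descFactorial n = (n + 1)! := by
      have h := Nat.descFactorial_succ (n + 1) n
      rw [Nat.descFactorial_self] at h
      rw [h]
      simp
    have h2 : bb θ n = (θ ^ (n + 1) - 1 / (n + 2) -
      ∑ k : Fin n, bb θ k * ((n + 1).descFactorial k : ℕ)) / ((n + 1)! : ℕ) := by
      rw [bb]
    have h3 : ((n + 1)! : ℝ) ≠ 0 := by exact_mod_cast (Nat.factorial_pos (n + 1)).ne'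
    rw [h1, h2, div_mul_cancel₀ _ h3, Fin.sum_univ_eq_sum_range
      (fun k => bb θ k * ((n + 1).descFactorial k : ℕ))]
    push_cast
    ring

lemma iter_poly (a : ℕ → ℂ) (N k : ℕ) (u : ℂ) :
    iteratedDeriv k (fun u : ℂ => ∑ j ∈ Finset.range N, a j * u ^ j) u =
      ∑ j ∈ Finset.range N, a j * ((j.descFactorial k : ℕ) * u ^ (j - k)) := by
  induction N with
  | zero => simp
  | succ N ih =>
    have h1 : (fun u : ℂ => ∑ j ∈ Finset.range (N + 1), a j * u ^ j) =
        fun u => (∑ j ∈ Finset.range N, a j * u ^ j) + a N * u ^ N := by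
      funext u
      rw [Finset.sum_range_succ]
    rw [h1, iteratedDeriv_fun_add, ih, Finset.sum_range_succ, iteratedDeriv_const_mul_field,
      iteratedDeriv_pow]
    · exact (ContDiff.sum fun j _ => contDiff_const.mul (contDiff_id.pow j)).contDiffAt
    · exact (contDiff_const.mul (contDiff_id.pow N)).contDiffAt

/-- the functional of one cell -/
noncomputable def Lam (θ : ℝ) (K : ℕ) (ε : ℝ) (f : ℂ → ℂ) : ℂ :=
  f (θ * ε) - (ε : ℂ)⁻¹ * (∫ x in (0:ℝ)..ε, f x) -
    ∑ k ∈ Finset.range K, (bb θ k : ℂ) * (ε : ℂ) ^ k * (iteratedDeriv k f ε - iteratedDeriv k f 0)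

lemma Lam_mono (θ : ℝ) (K m : ℕ) (ε : ℝ) (hε : 0 < ε) (hm : m ≤ K) :
    (θ * ε : ℂ) ^ m - (ε : ℂ)⁻¹ * (∫ x in (0:ℝ)..ε, (x : ℂ) ^ m) -
      ∑ k ∈ Finset.range K, (bb θ k : ℂ) * (ε : ℂ) ^ k *
        ((m.descFactorial k : ℕ) * (ε : ℂ) ^ (m - k) - (m.descFactorial k : ℕ) * (0 : ℂ) ^ (m - k)) =
      0 := by
  have hε0 : (ε : ℂ) ≠ 0 := by exact_mod_cast hε.ne'
  have h1 : (∫ x in (0:ℝ)..ε, (x : ℂ) ^ m) = (ε : ℂ) ^ (m + 1) / (m + 1) := by
    have h2 : (∫ x in (0:ℝ)..ε, (x : ℂ) ^ m) = ((∫ x in (0:ℝ)..ε, x ^ m : ℝ) : ℂ) := by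
      rw [← intervalIntegral.integral_ofReal]
      simp
    rw [h2, integral_pow]
    push_cast
    rw [zero_pow (Nat.succ_ne_zero m)]
    ring
  have h3 : ∑ k ∈ Finset.range K, (bb θ k : ℂ) * (ε : ℂ) ^ k *
        ((m.descFactorial k : ℕ) * (ε : ℂ) ^ (m - k) - (m.descFactorial k : ℕ) * (0 : ℂ) ^ (m - k)) =
      ∑ k ∈ Finset.range m, ((bb θ k * (m.descFactorial k : ℕ) : ℝ) : ℂ) * (ε : ℂ) ^ m := by
    rw [← Finset.sum_subset (Finset.range_subset_range.2 hm)]
    · refine Finset.sum_congr rfl fun k hk => ?_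
      rw [Finset.mem_range] at hk
      rw [zero_pow (by omega), mul_zero, sub_zero]
      have h4 : (ε : ℂ) ^ m = (ε : ℂ) ^ k * (ε : ℂ) ^ (m - k) := by
        rw [← pow_add]; congr 1; omega
      rw [h4]
      push_cast
      ring
    · intro k _ hk
      rw [Finset.mem_range, not_lt] at hk
      rcases hk.eq_or_lt with rfl | hk
      · simp
      · rw [Nat.descFactorial_of_lt hk]
        simp
  rw [h1, h3, ← Finset.sum_mul, ← Complex.ofReal_sum, bb_rec]
  push_cast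
  field_simp
  ring

lemma Lam_poly (θ : ℝ) (K : ℕ) (ε : ℝ) (hε : 0 < ε) (a : ℕ → ℂ) :
    Lam θ K ε (fun u : ℂ => ∑ j ∈ Finset.range (K + 1), a j * u ^ j) = 0 := by
  have hint : (∫ x in (0:ℝ)..ε, ∑ j ∈ Finset.range (K + 1), a j * (x : ℂ) ^ j) =
      ∑ j ∈ Finset.range (K + 1), a j * ∫ x in (0:ℝ)..ε, (x : ℂ) ^ j := by
    rw [intervalIntegral.integral_finsetSum]
    · refine Finset.sum_congr rfl fun j _ => ?_
      rw [intervalIntegral.integral_const_mul]
    · intro j _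
      exact (Continuous.intervalIntegrable (by fun_prop) _ _)
  have h0 : ∀ m ∈ Finset.range (K + 1), a m * ((θ * ε : ℂ) ^ m -
      (ε : ℂ)⁻¹ * (∫ x in (0:ℝ)..ε, (x : ℂ) ^ m) -
      ∑ k ∈ Finset.range K, (bb θ k : ℂ) * (ε : ℂ) ^ k *
        ((m.descFactorial k : ℕ) * (ε : ℂ) ^ (m - k) - (m.descFactorial k : ℕ) * (0 : ℂ) ^ (m - k))) =
      0 := by
    intro m hm
    rw [Lam_mono θ K m ε hε (by rw [Finset.mem_range] at hm; omega), mul_zero]
  have h1 := Finset.sum_eq_zero h0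
  rw [Lam, hint]
  simp only [iter_poly]
  simp only [mul_sub, Finset.sum_sub_distrib, Finset.mul_sum] at h1 ⊢
  refine Eq.trans ?_ h1
  congr 1
  · congr 1
    refine Finset.sum_congr rfl fun j _ => ?_
    ring
  · congr 1 <;>
    · rw [Finset.sum_comm]
      refine Finset.sum_congr rfl fun j _ => ?_
      refine Finset.sum_congr rfl fun k _ => ?_
      ring

/-- remainder of the Taylor series -/
lemma taylor_rem {G : ℂ → ℂ} {σ B : ℝ} (hσ : 0 < σ)
    (hG : DifferentiableOn ℂ G (Metric.ball 0 σ)) (hB : ∀ w ∈ Metric.ball (0 : ℂ) σ, ‖G w‖ ≤ B)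
    (K : ℕ) {ε : ℝ} (hε : 0 < ε) (hεσ : 4 * ε ≤ σ) {u : ℂ} (hu : ‖u‖ ≤ 3 * ε / 2) :
    ‖G u - ∑ j ∈ Finset.range (K + 1), (iteratedDeriv j G 0 / (j ! : ℂ)) * u ^ j‖ ≤
      2 * B * (2 * (ε / σ)) ^ (K + 1) := by
  have hB0 : 0 ≤ B := (norm_nonneg _).trans (hB 0 (Metric.mem_ball_self hσ))
  have hu' : u ∈ Metric.ball (0 : ℂ) σ := by
    rw [mem_ball_zero_iff]; linarith
  have hs := Complex.hasSum_taylorSeries_on_ball hG hu'
  set q : ℝ := 2 * (ε / σ) with hq
  have hq0 : 0 ≤ q := by positivity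
  have hq1 : q ≤ 1 / 2 := by
    rw [hq, ← mul_div_assoc, div_le_div_iff₀ hσ two_pos]; linarith
  have hterm : ∀ j : ℕ, ‖(j ! : ℂ)⁻¹ • (u - 0) ^ j • iteratedDeriv j G 0‖ ≤ B * q ^ j := by
    intro j
    have hr : 0 < 3 * σ / 4 := by positivity
    have hd : DiffContOnCl ℂ G (Metric.ball 0 (3 * σ / 4)) := by
      refine DifferentiableOn.diffContOnCl ?_
      refine hG.mono ?_
      refine (closure_minimal Metric.ball_subset_closedBall Metric.isClosed_closedBall).trans ?_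
      exact Metric.closedBall_subset_ball (by linarith)
    have hc := Complex.norm_iteratedDeriv_le_of_forall_mem_sphere_norm_le j hr hd
      (C := B) (fun z hz => hB z (by
        rw [mem_sphere_zero_iff_norm] at hz
        rw [mem_ball_zero_iff, hz]; linarith))
    rw [smul_eq_mul, smul_eq_mul, sub_zero, norm_mul, norm_mul, norm_inv, norm_pow]
    have hj : ‖(j ! : ℂ)‖ = (j ! : ℝ) := by simp
    have hjp : (0 : ℝ) < (j ! : ℝ) := by exact_mod_cast j.factorial_pos
    rw [hj]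
    calc (j ! : ℝ)⁻¹ * (‖u‖ ^ j * ‖iteratedDeriv j G 0‖)
        ≤ (j ! : ℝ)⁻¹ * ((3 * ε / 2) ^ j * (j ! * B / (3 * σ / 4) ^ j)) := by
          gcongr
      _ = B * ((3 * ε / 2) ^ j / (3 * σ / 4) ^ j) := by field_simp
      _ = B * q ^ j := by
          rw [← div_pow]
          congr 2
          rw [hq]; field_simp; ring
  have hsplit := (hasSum_nat_add_iff' (K + 1)).2 hs
  have hgeo : HasSum (fun j : ℕ => B * q ^ (j + (K + 1))) (B * q ^ (K + 1) * (1 - q)⁻¹) := by
    have := (hasSum_geometric_of_lt_one hq0 (by linarith)).mul_left (B * q ^ (K + 1))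
    refine this.congr_fun ?_ |> fun h => h
    intro j
    rw [pow_add]; ring
  have hle := hsplit.norm_le_of_bounded hgeo (fun j => hterm (j + (K + 1)))
  have hsum : ∑ j ∈ Finset.range (K + 1), (iteratedDeriv j G 0 / (j ! : ℂ)) * u ^ j =
      ∑ j ∈ Finset.range (K + 1), (j ! : ℂ)⁻¹ • (u - 0) ^ j • iteratedDeriv j G 0 := by
    refine Finset.sum_congr rfl fun j _ => ?_
    rw [smul_eq_mul, smul_eq_mul, sub_zero]
    ring
  rw [hsum]
  refine hle.trans ?_
  have h2 : (1 - q)⁻¹ ≤ 2 := by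
    rw [inv_le_comm₀ (by linarith) two_pos]; linarith
  calc B * q ^ (K + 1) * (1 - q)⁻¹ ≤ B * q ^ (K + 1) * 2 := by gcongr
    _ = 2 * B * q ^ (K + 1) := by ring

/-- the constant -/
noncomputable def Cc (θ : ℝ) (K : ℕ) : ℝ :=
  2 * 2 ^ (K + 1) * (2 + ∑ k ∈ Finset.range K, |bb θ k| * (2 * (k ! * 2 ^ k)))

lemma Cc_nonneg (θ : ℝ) (K : ℕ) : 0 ≤ Cc θ K := by
  unfold Cc
  have : 0 ≤ ∑ k ∈ Finset.range K, |bb θ k| * (2 * ((k ! : ℕ) * (2 : ℝ) ^ k)) :=
    Finset.sum_nonneg fun k _ => by positivity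
  positivity

/-- one cell at the origin -/
lemma cell0 (θ : ℝ) (h0 : 0 ≤ θ) (h1 : θ ≤ 1) (K : ℕ) {G : ℂ → ℂ} {σ B : ℝ} {ε : ℝ} (hε : 0 < ε)
    (hεσ : 4 * ε ≤ σ) (hG : DifferentiableOn ℂ G (Metric.ball 0 σ))
    (hB : ∀ w ∈ Metric.ball (0 : ℂ) σ, ‖G w‖ ≤ B) :
    ‖Lam θ K ε G‖ ≤ Cc θ K * (B * (ε / σ) ^ (K + 1)) := by
  have hσ : 0 < σ := by linarith
  have hB0 : 0 ≤ B := (norm_nonneg _).trans (hB 0 (Metric.mem_ball_self hσ))
  set T : ℂ → ℂ := fun u => ∑ j ∈ Finset.range (K + 1), (iteratedDeriv j G 0 / (j ! : ℂ)) * u ^ j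
    with hT
  set R : ℂ → ℂ := fun u => G u - T u with hR
  set Mx : ℝ := 2 * B * (2 * (ε / σ)) ^ (K + 1) with hMx
  have hMx0 : 0 ≤ Mx := by positivity
  have hRb : ∀ u : ℂ, ‖u‖ ≤ 3 * ε / 2 → ‖R u‖ ≤ Mx := fun u hu =>
    taylor_rem hσ hG hB K hε hεσ hu
  have hTd : ContDiff ℂ ⊤ T := ContDiff.sum fun j _ => contDiff_const.mul (contDiff_id.pow j)
  have hRd : DifferentiableOn ℂ R (Metric.ball 0 σ) :=
    hG.sub (hTd.differentiable (by simp)).differentiableOn
  have hball : ∀ x : ℝ, 0 ≤ x → x ≤ ε → (x : ℂ) ∈ Metric.ball (0 : ℂ) σ := by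
    intro x hx0 hx1
    rw [mem_ball_zero_iff, Complex.norm_real, Real.norm_of_nonneg hx0]
    linarith
  have hcd : ∀ (k : ℕ) (x : ℂ), x ∈ Metric.ball (0 : ℂ) σ → ContDiffAt ℂ k G x := by
    intro k x hx
    exact (hG.analyticAt (Metric.isOpen_ball.mem_nhds hx)).contDiffAt
  have hεb := hball ε hε.le le_rfl
  have h0b : (0 : ℂ) ∈ Metric.ball (0 : ℂ) σ := Metric.mem_ball_self hσ
  have hGc : ContinuousOn (fun x : ℝ => G x) (Icc 0 ε) :=
    hG.continuousOn.comp (by fun_prop) fun x hx => hball x hx.1 hx.2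
  have hTc : Continuous T := hTd.continuous
  -- splitting
  have hsplit : Lam θ K ε G = Lam θ K ε R := by
    have hp := Lam_poly θ K ε hε (fun j => iteratedDeriv j G 0 / (j ! : ℂ))
    have hit : ∀ k : ℕ, ∀ x ∈ Metric.ball (0 : ℂ) σ, iteratedDeriv k R x =
        iteratedDeriv k G x - iteratedDeriv k T x := by
      intro k x hx
      exact iteratedDeriv_fun_sub (hcd k x hx) (hTd.of_le (by exact_mod_cast le_top)).contDiffAt
    have hint : (∫ x in (0:ℝ)..ε, R x) = (∫ x in (0:ℝ)..ε, G x) - ∫ x in (0:ℝ)..ε, T x := by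
      rw [hR]
      refine intervalIntegral.integral_sub ?_ ?_
      · refine ContinuousOn.intervalIntegrable ?_
        rwa [uIcc_of_le hε.le]
      · exact (hTc.comp Complex.continuous_ofReal).intervalIntegrable _ _
    have : Lam θ K ε R = Lam θ K ε G - Lam θ K ε T := by
      unfold Lam
      rw [hint]
      have hs : ∑ k ∈ Finset.range K, (bb θ k : ℂ) * (ε : ℂ) ^ k *
          (iteratedDeriv k R ε - iteratedDeriv k R 0) =
          ∑ k ∈ Finset.range K, (bb θ k : ℂ) * (ε : ℂ) ^ k *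
          (iteratedDeriv k G ε - iteratedDeriv k G 0) -
          ∑ k ∈ Finset.range K, (bb θ k : ℂ) * (ε : ℂ) ^ k *
          (iteratedDeriv k T ε - iteratedDeriv k T 0) := by
        rw [← Finset.sum_sub_distrib]
        refine Finset.sum_congr rfl fun k _ => ?_
        rw [hit k ε hεb, hit k 0 h0b]
        ring
      rw [hs]
      simp only [hR]
      ring
    rw [this, hT, hp, sub_zero]
  rw [hsplit]
  -- the three parts
  have p1 : ‖R (θ * ε)‖ ≤ Mx := by
    apply hRb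
    rw [norm_mul, Complex.norm_real, Complex.norm_real, Real.norm_of_nonneg h0,
      Real.norm_of_nonneg hε.le]
    nlinarith
  have p2 : ‖(ε : ℂ)⁻¹ * ∫ x in (0:ℝ)..ε, R x‖ ≤ Mx := by
    rw [norm_mul, norm_inv, Complex.norm_real, Real.norm_of_nonneg hε.le]
    have h2 : ‖∫ x in (0:ℝ)..ε, R x‖ ≤ Mx * |ε - 0| := by
      refine intervalIntegral.norm_integral_le_of_norm_le_const fun x hx => hRb _ ?_
      rw [uIoc_of_le hε.le] at hx
      rw [Complex.norm_real, Real.norm_of_nonneg hx.1.le]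
      linarith [hx.2]
    rw [sub_zero, abs_of_pos hε] at h2
    calc ε⁻¹ * ‖∫ x in (0:ℝ)..ε, R x‖ ≤ ε⁻¹ * (Mx * ε) := by gcongr
      _ = Mx := by field_simp
  have hder : ∀ (k : ℕ) (c : ℂ), ‖c‖ ≤ ε → ‖iteratedDeriv k R c‖ ≤ k ! * Mx / (ε / 2) ^ k := by
    intro k c hc
    refine Complex.norm_iteratedDeriv_le_of_forall_mem_sphere_norm_le k (by positivity) ?_ ?_
    · refine DifferentiableOn.diffContOnCl (hRd.mono ?_)
      refine (closure_minimal Metric.ball_subset_closedBall Metric.isClosed_closedBall).trans ?_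
      intro w hw
      rw [mem_closedBall_iff_norm] at hw
      rw [mem_ball_zero_iff]
      have := norm_le_norm_add_norm_sub' w c
      linarith [norm_le_norm_add_norm_sub' w c]
    · intro w hw
      apply hRb
      rw [mem_sphere_iff_norm] at hw
      have := norm_le_norm_add_norm_sub' w c
      linarith
  have p3 : ‖∑ k ∈ Finset.range K, (bb θ k : ℂ) * (ε : ℂ) ^ k *
      (iteratedDeriv k R ε - iteratedDeriv k R 0)‖ ≤
      ∑ k ∈ Finset.range K, |bb θ k| * (2 * ((k ! : ℕ) * (2 : ℝ) ^ k)) * Mx := by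
    refine (norm_sum_le _ _).trans (Finset.sum_le_sum fun k _ => ?_)
    rw [norm_mul, norm_mul, norm_pow, Complex.norm_real, Complex.norm_real,
      Real.norm_of_nonneg hε.le, Real.norm_eq_abs]
    have d1 := hder k ε (by rw [Complex.norm_real, Real.norm_of_nonneg hε.le])
    have d2 := hder k 0 (by rw [norm_zero]; exact hε.le)
    calc |bb θ k| * ε ^ k * ‖iteratedDeriv k R ε - iteratedDeriv k R 0‖
        ≤ |bb θ k| * ε ^ k * (k ! * Mx / (ε / 2) ^ k + k ! * Mx / (ε / 2) ^ k) := by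
          gcongr
          exact (norm_sub_le _ _).trans (add_le_add d1 d2)
      _ = |bb θ k| * (2 * ((k ! : ℕ) * (2 : ℝ) ^ k)) * Mx := by
          rw [div_pow]
          have : ε ^ k ≠ 0 := by positivity
          field_simp
          ring
  rw [Lam]
  refine ((norm_sub_le _ _).trans (add_le_add ((norm_sub_le _ _).trans (add_le_add p1 p2)) p3)).trans
    (le_of_eq ?_)
  rw [← Finset.sum_mul, Cc, hMx, mul_pow]
  ring

/-- one cell -/
lemma cell (θ : ℝ) (h0 : 0 ≤ θ) (h1 : θ ≤ 1) (K : ℕ) {F : ℂ → ℂ} {z : ℂ} {σ B : ℝ} {ε : ℝ}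
    (hε : 0 < ε) (hεσ : 4 * ε ≤ σ)
    (hF : ∀ w : ℂ, ‖w - z‖ < σ → DifferentiableAt ℂ F w ∧ ‖F w‖ ≤ B) :
    ‖F (z + θ * ε) - (ε : ℂ)⁻¹ * (∫ x in (0:ℝ)..ε, F (z + x)) -
      ∑ k ∈ Finset.range K, (bb θ k : ℂ) * (ε : ℂ) ^ k *
        (iteratedDeriv k F (z + ε) - iteratedDeriv k F z)‖ ≤ Cc θ K * (B * (ε / σ) ^ (K + 1)) := by
  have h := cell0 θ h0 h1 K (G := fun u => F (z + u)) (σ := σ) (B := B) hε hεσ
    (fun u hu => by
      rw [mem_ball_zero_iff] at hu
      have h2 := (hF (z + u) (by rwa [add_sub_cancel_left])).1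
      exact (h2.comp u ((differentiableAt_const z).add differentiableAt_id)).differentiableWithinAt)
    (fun u hu => by
      rw [mem_ball_zero_iff] at hu
      exact (hF (z + u) (by rwa [add_sub_cancel_left])).2)
  rw [Lam] at h
  simp only [iteratedDeriv_comp_const_add, add_zero] at h
  exact h

theorem em : S_EM := by
  intro θ h0 h1
  refine ⟨bb θ, fun K => ⟨Cc θ K, Cc_nonneg θ K, ?_⟩⟩
  intro F z n ε σ B hε hεσ hF
  have hσ : 0 < σ := by linarith
  induction n with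
  | zero => simp
  | succ n ih =>
    have hF' : ∀ x : ℝ, 0 ≤ x → x ≤ n * ε → ∀ w : ℂ, ‖w - (z + x)‖ < σ →
        DifferentiableAt ℂ F w ∧ ‖F w‖ ≤ B := by
      intro x hx0 hx1
      refine hF x hx0 (hx1.trans ?_)
      push_cast
      nlinarith
    have hn := ih hF'
    have hc := cell θ h0 h1 K (F := F) (z := z + n * ε) (σ := σ) (B := B) hε hεσ
      (fun w hw => hF (n * ε) (by positivity) (by push_cast; nlinarith) w (by
        push_cast; exact hw))
    have hcont : ContinuousOn (fun x : ℝ => F (z + x)) (Icc 0 ((n + 1) * ε)) := by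
      intro x hx
      have h2 := (hF x hx.1 (by push_cast; exact hx.2) (z + x) (by simpa using hσ)).1
      have h3 : ContinuousAt (fun x : ℝ => F (z + x)) x :=
        h2.continuousAt.comp (f := fun x : ℝ => z + (x : ℂ)) (by fun_prop)
      exact h3.continuousWithinAt
    have hnε : (n : ℝ) * ε ≤ (n + 1) * ε := by nlinarith
    have hn0 : (0 : ℝ) ≤ n * ε := by positivity
    have hi1 : IntervalIntegrable (fun x : ℝ => F (z + x)) volume 0 (n * ε) := by
      refine ContinuousOn.intervalIntegrable ?_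
      rw [uIcc_of_le hn0]
      exact hcont.mono (Icc_subset_Icc_right hnε)
    have hi2 : IntervalIntegrable (fun x : ℝ => F (z + x)) volume (n * ε) ((n + 1) * ε) := by
      refine ContinuousOn.intervalIntegrable ?_
      rw [uIcc_of_le hnε]
      exact hcont.mono (Icc_subset_Icc_left hn0)
    have hint : (∫ x in (0:ℝ)..((n + 1 : ℕ) * ε), F (z + x)) =
        (∫ x in (0:ℝ)..(n * ε), F (z + x)) + ∫ x in (0:ℝ)..ε, F (z + n * ε + x) := by
      push_cast
      rw [← intervalIntegral.integral_add_adjacent_intervals hi1 hi2]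
      congr 1
      have h4 := intervalIntegral.integral_comp_add_left (a := 0) (b := ε)
        (fun x : ℝ => F (z + x)) ((n : ℝ) * ε)
      rw [add_zero] at h4
      have h5 : ((n : ℝ) + 1) * ε = n * ε + ε := by ring
      rw [h5, ← h4]
      refine intervalIntegral.integral_congr fun x _ => ?_
      congr 1
      push_cast
      ring
    have e1 : F (z + ε * (n + θ)) = F (z + n * ε + θ * ε) := by
      congr 1; ring
    have e2 : (z : ℂ) + (n + 1 : ℕ) * ε = z + n * ε + ε := by push_cast; ring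
    have e3 : ∑ k ∈ Finset.range K, (bb θ k : ℂ) * (ε : ℂ) ^ k *
        (iteratedDeriv k F (z + (n + 1 : ℕ) * ε) - iteratedDeriv k F z) =
        ∑ k ∈ Finset.range K, (bb θ k : ℂ) * (ε : ℂ) ^ k *
        (iteratedDeriv k F (z + n * ε) - iteratedDeriv k F z) +
        ∑ k ∈ Finset.range K, (bb θ k : ℂ) * (ε : ℂ) ^ k *
        (iteratedDeriv k F (z + n * ε + ε) - iteratedDeriv k F (z + n * ε)) := by
      rw [← Finset.sum_add_distrib]
      refine Finset.sum_congr rfl fun k _ => ?_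
      rw [e2]
      ring
    rw [hint, e3, Finset.sum_range_succ, e1]
    refine le_trans (le_of_eq ?_) ((norm_add_le _ _).trans ((add_le_add hn hc).trans (le_of_eq ?_)))
    · congr 1
      ring
    · push_cast
      ring

end Pool.Agent.W571.FE.EM

namespace Pool.Agent.W571.FE

theorem em : Pool.Agent.W707.FE.S_EM := EM.em

end Pool.Agent.W571.FE
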