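import Pool.Agent.W707.FE.A

/-!
# The function `log (2 cos (z/2))` and its primitive (`S_GP`)
-/

set_option autoImplicit false

namespace Pool.Agent.W571.FE

open Pool.Agent.W707.FE Filter MeasureTheory Set
open scoped Real Topology

lemma isOpen_Uf : IsOpen Uf :=
  (isOpen_lt continuous_const Complex.continuous_im).union
    (isOpen_lt (Complex.continuous_re.abs) continuous_const)

lemma smul_mem_Uf {z : ℂ} (hz : z ∈ Uf) {τ : ℝ} (h0 : 0 ≤ τ) (h1 : τ ≤ 1) : (τ : ℂ) * z ∈ Uf := by
  rcases hz with hz | hz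
  · rcases h0.eq_or_lt with rfl | h0
    · right
      show |((0 : ℝ) * z : ℂ).re| < π
      simp [Real.pi_pos]
    · left
      show 0 < ((τ : ℂ) * z).im
      rw [Complex.im_ofReal_mul]
      exact mul_pos h0 hz
  · right
    show |((τ : ℂ) * z).re| < π
    rw [Complex.re_ofReal_mul, abs_mul, abs_of_nonneg h0]
    calc τ * |z.re| ≤ 1 * |z.re| := mul_le_mul_of_nonneg_right h1 (abs_nonneg _)
      _ < π := by rw [one_mul]; exact hz

lemma slit {z : ℂ} (hz : z ∈ Uf) : 1 + Complex.exp (Complex.I * z) ∈ Complex.slitPlane := by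
  have hre : (Complex.exp (Complex.I * z)).re = Real.exp (-z.im) * Real.cos z.re := by
    rw [Complex.exp_re]; simp
  have him : (Complex.exp (Complex.I * z)).im = Real.exp (-z.im) * Real.sin z.re := by
    rw [Complex.exp_im]; simp
  rw [Complex.mem_slitPlane_iff]
  rcases hz with hz | hz
  · left
    rw [Complex.add_re, Complex.one_re, hre]
    have h1 : Real.exp (-z.im) < 1 := Real.exp_lt_one_iff.2 (neg_lt_zero.2 hz)
    have h2 : -1 ≤ Real.cos z.re := Real.neg_one_le_cos _
    nlinarith [Real.exp_pos (-z.im)]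
  · by_cases hs : Real.sin z.re = 0
    · left
      have h0 : z.re = 0 := (Real.sin_eq_zero_iff_of_lt_of_lt (abs_lt.1 hz).1 (abs_lt.1 hz).2).1 hs
      rw [Complex.add_re, Complex.one_re, hre, h0, Real.cos_zero, mul_one]
      positivity
    · right
      rw [Complex.add_im, Complex.one_im, him, zero_add]
      exact mul_ne_zero (Real.exp_pos _).ne' hs

/-- derivative of `Gf` -/
noncomputable def Gd (w : ℂ) : ℂ :=
  -(Complex.I / 2) + Complex.exp (Complex.I * w) * Complex.I / (1 + Complex.exp (Complex.I * w))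

lemma hasDerivAt_Gf {z : ℂ} (hz : z ∈ Uf) : HasDerivAt Gf (Gd z) z := by
  have h1 : HasDerivAt (fun w : ℂ => Complex.I * w) (Complex.I) z := by
    simpa using (hasDerivAt_id z).const_mul Complex.I
  have h2 : HasDerivAt (fun w : ℂ => 1 + Complex.exp (Complex.I * w))
      (Complex.exp (Complex.I * z) * Complex.I) z := (h1.cexp).const_add 1
  have h3 := h2.clog (slit hz)
  have h4 : HasDerivAt (fun w : ℂ => -(Complex.I * w / 2)) (-(Complex.I / 2)) z :=
    (h1.div_const 2).neg
  exact h4.add h3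

lemma continuousOn_Gf : ContinuousOn Gf Uf := fun _ hz => (hasDerivAt_Gf hz).continuousAt.continuousWithinAt

lemma continuousOn_Gd : ContinuousOn Gd Uf := by
  unfold Gd
  refine ContinuousOn.add continuousOn_const (ContinuousOn.div (by fun_prop) (by fun_prop) ?_)
  intro z hz
  exact Complex.slitPlane_ne_zero (slit hz)

lemma hasDerivAt_Pf {z : ℂ} (hz : z ∈ Uf) : HasDerivAt Pf (Gf z) z := by
  obtain ⟨δ, hδ, hball⟩ := Metric.nhds_basis_closedBall.mem_iff.1 (isOpen_Uf.mem_nhds hz)
  let F : ℂ → ℝ → ℂ := fun w τ => w * Gf (τ * w)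
  let F' : ℂ → ℝ → ℂ := fun w τ => Gf (τ * w) + w * (Gd (τ * w) * τ)
  -- continuity on the compact set
  have hmap : MapsTo (fun q : ℝ × ℂ => (q.1 : ℂ) * q.2) (Icc (0:ℝ) 1 ×ˢ Metric.closedBall z δ) Uf :=
    fun q hq => smul_mem_Uf (hball hq.2) hq.1.1 hq.1.2
  have hcont : ContinuousOn (fun q : ℝ × ℂ => F' q.2 q.1) (Icc (0:ℝ) 1 ×ˢ Metric.closedBall z δ) := by
    have hc : ContinuousOn (fun q : ℝ × ℂ => (q.1 : ℂ) * q.2)
        (Icc (0:ℝ) 1 ×ˢ Metric.closedBall z δ) := by fun_prop
    refine ContinuousOn.add (continuousOn_Gf.comp hc hmap) ?_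
    refine ContinuousOn.mul (by fun_prop) ((continuousOn_Gd.comp hc hmap).mul (by fun_prop))
  obtain ⟨B, hB⟩ := (isCompact_Icc.prod (isCompact_closedBall z δ)).exists_bound_of_continuousOn hcont
  have hslice : ∀ w ∈ Metric.closedBall z δ, ContinuousOn (fun τ : ℝ => Gf (τ * w)) (Icc (0:ℝ) 1) := by
    intro w hw
    refine continuousOn_Gf.comp (by fun_prop) fun τ hτ => ?_
    exact smul_mem_Uf (hball hw) hτ.1 hτ.2
  have hsliced : ∀ w ∈ Metric.closedBall z δ, ContinuousOn (fun τ : ℝ => Gd (τ * w)) (Icc (0:ℝ) 1) := by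
    intro w hw
    refine continuousOn_Gd.comp (by fun_prop) fun τ hτ => ?_
    exact smul_mem_Uf (hball hw) hτ.1 hτ.2
  have hzb : z ∈ Metric.closedBall z δ := Metric.mem_closedBall_self hδ.le
  have hI : Set.uIoc (0:ℝ) 1 ⊆ Icc (0:ℝ) 1 := by
    rw [uIoc_of_le zero_le_one]; exact Ioc_subset_Icc_self
  have key := intervalIntegral.hasDerivAt_integral_of_dominated_loc_of_deriv_le (μ := volume)
    (F := F) (F' := F') (x₀ := z) (a := 0) (b := 1) (s := Metric.closedBall z δ)
    (bound := fun _ => B) (Metric.closedBall_mem_nhds z hδ) ?_ ?_ ?_ ?_ ?_ ?_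
  · have h1 : (∫ t in (0:ℝ)..1, F' z t) = Gf z := by
      have h2 : ∀ t ∈ uIcc (0:ℝ) 1, HasDerivAt (fun t : ℝ => (t : ℂ) * Gf (t * z)) (F' z t) t := by
        intro t ht
        rw [uIcc_of_le zero_le_one] at ht
        have hm := smul_mem_Uf hz ht.1 ht.2
        have h3 : HasDerivAt (fun t : ℝ => (t : ℂ)) 1 t := Complex.ofRealCLM.hasDerivAt
        have h4 : HasDerivAt (fun t : ℝ => (t : ℂ) * z) (1 * z) t := h3.mul_const z
        have h5 : HasDerivAt (fun t : ℝ => Gf (t * z)) (Gd (t * z) * (1 * z)) t :=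
          HasDerivAt.comp t (hasDerivAt_Gf hm) h4
        have h6 := h3.mul h5
        refine HasDerivAt.congr_deriv (f := fun t : ℝ => (t : ℂ) * Gf (t * z)) h6 ?_
        show _ = Gf (t * z) + z * (Gd (t * z) * t)
        ring
      rw [intervalIntegral.integral_eq_sub_of_hasDerivAt h2]
      · simp
      · refine ContinuousOn.intervalIntegrable ?_
        rw [uIcc_of_le zero_le_one]
        exact (hslice z hzb).add (continuousOn_const.mul ((hsliced z hzb).mul (by fun_prop)))
    have h7 := key.2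
    rw [h1] at h7
    exact h7
  · filter_upwards [Metric.closedBall_mem_nhds z hδ] with w hw
    refine ContinuousOn.aestronglyMeasurable ?_ measurableSet_uIoc
    exact (continuousOn_const.mul (hslice w hw)).mono hI
  · refine ContinuousOn.intervalIntegrable ?_
    rw [uIcc_of_le zero_le_one]
    exact continuousOn_const.mul (hslice z hzb)
  · refine ContinuousOn.aestronglyMeasurable ?_ measurableSet_uIoc
    exact ((hslice z hzb).add (continuousOn_const.mul ((hsliced z hzb).mul (by fun_prop)))).mono hI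
  · refine Eventually.of_forall fun t ht w hw => ?_
    exact hB (t, w) ⟨hI ht, hw⟩
  · exact intervalIntegrable_const
  · refine Eventually.of_forall fun t ht w hw => ?_
    have hm := smul_mem_Uf (hball hw) (hI ht).1 (hI ht).2
    have h4 : HasDerivAt (fun w : ℂ => (t : ℂ) * w) ((t : ℂ) * 1) w := (hasDerivAt_id w).const_mul _
    have h5 : HasDerivAt (fun w : ℂ => Gf (t * w)) (Gd (t * w) * ((t : ℂ) * 1)) w :=
      HasDerivAt.comp w (hasDerivAt_Gf hm) h4
    have h6 := (hasDerivAt_id w).mul h5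
    refine HasDerivAt.congr_deriv (f := fun w : ℂ => w * Gf (t * w)) h6 ?_
    show _ = Gf (t * w) + w * (Gd (t * w) * t)
    simp only [id]
    ring

lemma exp_Gf {z : ℂ} (hz : z ∈ Uf) : Complex.exp (Gf z) = 2 * Complex.cos (z / 2) := by
  rw [Gf, Complex.exp_add, Complex.exp_log (Complex.slitPlane_ne_zero (slit hz)), mul_add, mul_one,
    ← Complex.exp_add, Complex.cos]
  have h1 : -(Complex.I * z / 2) + Complex.I * z = z / 2 * Complex.I := by ring
  have h2 : -(Complex.I * z / 2) = -(z / 2) * Complex.I := by ring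
  rw [h1, h2]
  ring

lemma neg_conj_mem {z : ℂ} (hz : z ∈ Uf) : -(starRingEnd ℂ) z ∈ Uf := by
  rcases hz with hz | hz
  · left
    show 0 < (-(starRingEnd ℂ) z).im
    simpa using hz
  · right
    show |(-(starRingEnd ℂ) z).re| < π
    simpa using hz

lemma Gf_conj {z : ℂ} (hz : z ∈ Uf) : Gf (-(starRingEnd ℂ) z) = (starRingEnd ℂ) (Gf z) := by
  have h1 : Complex.I * -(starRingEnd ℂ) z = (starRingEnd ℂ) (Complex.I * z) := by
    rw [map_mul, Complex.conj_I]; ring
  have harg : (1 + Complex.exp (Complex.I * z)).arg ≠ π := Complex.slitPlane_arg_ne_pi (slit hz)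
  rw [Gf, Gf, h1, map_add, ← Complex.log_conj _ harg, map_add, map_one, ← Complex.exp_conj, map_neg,
    map_div₀]
  congr 3
  exact (map_ofNat (starRingEnd ℂ) 2).symm

lemma Pf_conj {z : ℂ} (hz : z ∈ Uf) : Pf (-(starRingEnd ℂ) z) = -(starRingEnd ℂ) (Pf z) := by
  rw [Pf, Pf, intervalIntegral.integral_of_le zero_le_one, intervalIntegral.integral_of_le zero_le_one,
    ← integral_conj, ← integral_neg]
  refine setIntegral_congr_fun measurableSet_Ioc fun τ hτ => ?_
  have h1 : (τ : ℂ) * -(starRingEnd ℂ) z = -(starRingEnd ℂ) ((τ : ℂ) * z) := by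
    rw [map_mul, Complex.conj_ofReal]; ring
  rw [h1, Gf_conj (smul_mem_Uf hz hτ.1.le hτ.2), map_mul]
  ring

lemma re_Gf (τ η : ℝ) (hη : 0 < η) : (Gf (τ + η * Complex.I)).re =
    1 / 2 * Real.log (2 * Real.cosh η + 2 * Real.cos τ) := by
  have hz : ((τ : ℂ) + η * Complex.I) ∈ Uf := by
    left
    show 0 < ((τ : ℂ) + η * Complex.I).im
    simpa using hη
  have hne := Complex.slitPlane_ne_zero (slit hz)
  set e : ℂ := Complex.exp (Complex.I * (τ + η * Complex.I)) with he
  have hre : e.re = Real.exp (-η) * Real.cos τ := by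
    rw [he, Complex.exp_re]; simp
  have him : e.im = Real.exp (-η) * Real.sin τ := by
    rw [he, Complex.exp_im]; simp
  have hsq : ‖1 + e‖ ^ 2 = Real.exp (-η) * (2 * Real.cosh η + 2 * Real.cos τ) := by
    rw [← Complex.normSq_eq_norm_sq, Complex.normSq_apply, Complex.add_re, Complex.add_im,
      Complex.one_re, Complex.one_im, hre, him, Real.cosh_eq]
    have h1 : Real.exp (-η) * Real.exp η = 1 := by rw [← Real.exp_add]; simp
    have h2 := Real.sin_sq_add_cos_sq τ
    linear_combination (Real.exp (-η)) ^ 2 * h2 - h1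
  have hpos : 0 < ‖1 + e‖ := norm_pos_iff.2 hne
  have hlog : Real.log (2 * Real.cosh η + 2 * Real.cos τ) = η + 2 * Real.log ‖1 + e‖ := by
    have h3 : 2 * Real.cosh η + 2 * Real.cos τ = Real.exp η * ‖1 + e‖ ^ 2 := by
      rw [hsq, ← mul_assoc, ← Real.exp_add]; simp
    rw [h3, Real.log_mul (Real.exp_pos _).ne' (pow_pos hpos 2).ne', Real.log_exp, Real.log_pow]
    norm_num
  rw [hlog, Gf, ← he, Complex.add_re, Complex.log_re]
  simp
  ring

lemma Gf_real (y : ℝ) (hy : |y| < π) :
    Gf y = ((Real.log (2 * Real.cos (y / 2)) : ℝ) : ℂ) := by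
  have hc : 0 < Real.cos (y / 2) := Real.cos_pos_of_mem_Ioo
    ⟨by have := (abs_lt.1 hy).1; linarith, by have := (abs_lt.1 hy).2; linarith⟩
  have h1 : 1 + Complex.exp (Complex.I * y) =
      ((2 * Real.cos (y / 2) : ℝ) : ℂ) * Complex.exp (Complex.I * y / 2) := by
    push_cast
    rw [Complex.cos, mul_div_cancel₀ _ (two_ne_zero' ℂ), add_mul, ← Complex.exp_add,
      ← Complex.exp_add]
    have e1 : (y : ℂ) / 2 * Complex.I + Complex.I * y / 2 = Complex.I * y := by ring
    have e2 : -((y : ℂ) / 2) * Complex.I + Complex.I * y / 2 = 0 := by ring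
    rw [e1, e2, Complex.exp_zero]
    ring
  have him : (Complex.I * (y : ℂ) / 2).im = y / 2 := by simp
  rw [Gf, h1, Complex.log_ofReal_mul (by positivity) (Complex.exp_ne_zero _), Complex.log_exp]
  · ring
  · rw [him]; have := (abs_lt.1 hy).1; linarith [Real.pi_pos]
  · rw [him]; have := (abs_lt.1 hy).2; linarith [Real.pi_pos]

theorem gp : S_GP :=
  ⟨isOpen_Uf, fun _ hz => (hasDerivAt_Gf hz).differentiableAt.differentiableWithinAt,
    fun _ hz => hasDerivAt_Pf hz, fun _ hz => exp_Gf hz, fun _ hz => Gf_conj hz,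
    fun _ hz => Pf_conj hz, re_Gf, Gf_real⟩

end Pool.Agent.W571.FE
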